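import Pool.Agent.H378Z.Gcnf

set_option autoImplicit false

namespace Pool.Agent.Results.MP_a300b0_lc.QuasiPoly

open Pool.Agent.H378Z.Gcnf

/-- GCNF in DAG form simulates resolution with a quasi-polynomial increase in size. -/
theorem result (S : Cedent) (hS : ∅ ∉ S) (L : List Clause) (hL : IsResRefutation S L) :
    ∃ P, IsGcnfRefutation S P ∧
      gcnfSize P ≤ 18 * cedSize S * L.length *
        2 ^ (Nat.clog 2 L.length * (Nat.clog 2 L.length + 1)) :=
  quasi_poly S hS L hL

end Pool.Agent.Results.MP_a300b0_lc.QuasiPoly
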